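import Pool.Agent.Mpub.Defs
import Pool.Agent.Msh.Full

/-!
# From the public definitions to the library (P11, helper39)
-/

set_option autoImplicit false

namespace Pool.Agent.Mpub

open Topology Filter
open Pool.Agent.Msh (FR FRing FMod)
open Pool.Agent.Ep (Var Sym IsFormal IsMicro)

variable {T : Type} [TopologicalSpace T] {d : ℕ}

/-! ## row q1: the Leibniz formula -/

private lemma q1_sum {κ : Type} (s : Finset κ)
    (F : κ → Derivation ℂ (Sym d) (Sym d)) (f : Sym d) : (∑ i ∈ s, F i) f = ∑ i ∈ s, F i f := by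
  have h := congrFun (map_sum (Derivation.coeFnAddMonoidHom :
    Derivation ℂ (Sym d) (Sym d) →+ _) F s) f
  rw [Finset.sum_apply] at h
  exact h

private lemma q1_D (i : Option (Fin d)) (f : Sym d) : dXi i f = Pool.Agent.Ep.D i f := by
  cases i with
  | some i => rfl
  | none =>
    change _ = (-((Pool.Agent.Ep.vs : Sym d) • ((Pool.Agent.Ep.vs : Sym d) •
      MvPowerSeries.pderiv ℂ none + ∑ i : Fin d, Pool.Agent.Ep.vy i •
        MvPowerSeries.pderiv ℂ (some (Var.y i)))) : Derivation ℂ (Sym d) (Sym d)) f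
    rw [Derivation.neg_apply, Derivation.smul_apply, Derivation.add_apply,
      Derivation.smul_apply, q1_sum]
    rfl

private lemma q1_B (i : Option (Fin d)) (f : Sym d) : dX i f = Pool.Agent.Ep.B i f := by
  cases i <;> rfl

private lemma q1_leib (n : ℕ) (f g : Sym d) : leib n f g = Pool.Agent.Ep.lb n f g := by
  induction n generalizing f g with
  | zero => rfl
  | succ n ih =>
    change ((n : ℂ) + 1)⁻¹ • ∑ i, leib n (dXi i f) (dX i g) =
      ((n : ℂ) + 1)⁻¹ • ∑ i, Pool.Agent.Ep.lb n (Pool.Agent.Ep.D i f) (Pool.Agent.Ep.B i g)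
    congr 1
    refine Finset.sum_congr rfl fun i _ => ?_
    rw [ih, q1_D, q1_B]

theorem comp_eq (f g : Sym d) : comp f g = Pool.Agent.Ep.comp f g := by
  funext m
  change ∑ n ∈ Finset.range (m none + 1), MvPowerSeries.coeff m (leib n f g) =
    ∑ n ∈ Finset.range (m none + 1), MvPowerSeries.coeff m (Pool.Agent.Ep.lb n f g)
  exact Finset.sum_congr rfl fun n _ => by rw [q1_leib]

/-! ## row q2: standard stalks -/

/-- `e` induces an isomorphism of rings `F 0 ≃+* hatE d` -/
theorem std_int {A : Type} [Ring A] {f : FR A} {E : Subring A} (h : Std d f (E : Set A)) :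
    Pool.Agent.Msh.Std d f E := by
  obtain ⟨e, τ, h1, h2, h3, h4, h5, h6, h7, h8, h9⟩ := h
  have hX : IsMicro (MvPowerSeries.X none : Sym d) := Pool.Agent.Ep.isMicro_X none
  have hF : IsFormal (MvPowerSeries.X none : Sym d) := Pool.Agent.Ep.IsMicro.formal hX
  have h0 : IsFormal (0 : Sym d) := (Pool.Agent.Ep.hatE d).zero_mem
  have hz : e 0 = 0 := by
    have h := (h1 0 0 h0 h0).1
    rw [add_zero] at h
    exact left_eq_add.1 h
  let φ : Pool.Agent.Ep.hatE d →+* f.F0 :=
    { toFun := fun P => ⟨e P.1.sym, (h3 _).2 ⟨_, P.2, rfl⟩⟩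
      map_one' := Subtype.ext h2
      map_mul' := fun P Q => Subtype.ext (by
        have h := (h1 P.1.sym Q.1.sym P.2 Q.2).2.1
        rw [comp_eq] at h
        exact h)
      map_zero' := Subtype.ext hz
      map_add' := fun P Q => Subtype.ext (h1 P.1.sym Q.1.sym P.2 Q.2).1 }
  have hφ : ∀ P : Pool.Agent.Ep.hatE d, ((φ P : f.F0) : A) = e P.1.sym := fun P => rfl
  have hb : Function.Bijective φ := by
    constructor
    · intro P Q hPQ
      have h := congrArg (fun x : f.F0 => (x : A)) hPQ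
      simp only [hφ] at h
      exact Subtype.ext (Pool.Agent.Ep.Op.ext ((h1 P.1.sym Q.1.sym P.2 Q.2).2.2 h))
    · intro a
      obtain ⟨P, hP, hPa⟩ := (h3 (a : A)).1 a.2
      exact ⟨⟨Pool.Agent.Ep.op P, hP⟩, Subtype.ext hPa⟩
  let g := RingEquiv.ofBijective φ hb
  have hg : ∀ P : Pool.Agent.Ep.hatE d, g P = φ P := fun P => rfl
  refine ⟨e (MvPowerSeries.X none), τ, g.symm, (h3 _).2 ⟨_, hF, rfl⟩, h5, h6, (h4 _ hF).2 hX, h7, h8, h9, ?_, ?_⟩
  · have h : g.symm ⟨e (MvPowerSeries.X none), (h3 _).2 ⟨_, hF, rfl⟩⟩ = ⟨Pool.Agent.Ep.op (MvPowerSeries.X none), hF⟩ := by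
      rw [RingEquiv.symm_apply_eq]
      rfl
    rw [h]
    rfl
  · intro a
    obtain ⟨P, rfl⟩ := g.surjective a
    rw [RingEquiv.symm_apply_apply]
    exact h4 P.1.sym P.2

/-! ## row q3: the two definitions of regular holonomic modules agree -/

theorem dimLE_iff (R : FRing T) (Λ : Set T) (d : ℕ) (p : T) :
    DimLE R Λ d p ↔ R.DimLE Λ d p := by
  classical
  constructor
  · intro h O _ φ hs hv
    have hφ : ∀ a (ha : a ∈ (R.fil p).F 0), (if h : a ∈ (R.fil p).F 0 then φ ⟨a, h⟩ else 0)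
        = φ ⟨a, ha⟩ := fun a ha => dif_pos ha
    refine h O (fun a => if h : a ∈ (R.fil p).F 0 then φ ⟨a, h⟩ else 0) ?_ ?_ ?_ ?_
    · intro a ha b hb
      have h1 : a + b ∈ (R.fil p).F 0 := ((R.fil p).F 0).add_mem ha hb
      have h2 : a * b ∈ (R.fil p).F 0 := (R.fil p).mul 0 0 a b ha hb
      constructor
      · show (if h : a + b ∈ (R.fil p).F 0 then φ ⟨a + b, h⟩ else 0) = _
        rw [dif_pos h1, hφ a ha, hφ b hb, ← map_add]
        rfl
      · show (if h : a * b ∈ (R.fil p).F 0 then φ ⟨a * b, h⟩ else 0) = _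
        rw [dif_pos h2, hφ a ha, hφ b hb, ← map_mul]
        rfl
    · show (if h : (1 : R.A p) ∈ (R.fil p).F 0 then φ ⟨1, h⟩ else 0) = 1
      rw [dif_pos (R.fil p).one]
      exact φ.map_one
    · intro b
      obtain ⟨a, ha⟩ := hs b
      exact ⟨a, a.2, by rw [hφ a a.2]; exact ha⟩
    · intro a ha hva
      show (if h : a ∈ (R.fil p).F 0 then φ ⟨a, h⟩ else 0) = 0
      rw [dif_pos ha]
      exact hv ⟨a, ha⟩ hva
  · intro h O _ φ h1 h2 h3 h4
    have h0 : φ 0 = 0 := by
      have := (h1 0 ((R.fil p).F 0).zero_mem 0 ((R.fil p).F 0).zero_mem).1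
      rw [add_zero] at this
      simpa using this
    let ψ : (R.fil p).F0 →+* O :=
      { toFun := fun a => φ a
        map_one' := h2
        map_mul' := fun a b => (h1 a a.2 b b.2).2
        map_zero' := h0
        map_add' := fun a b => (h1 a a.2 b b.2).1 }
    refine h O ψ ?_ ?_
    · intro b
      obtain ⟨a, ha, hb⟩ := h3 b
      exact ⟨⟨a, ha⟩, hb⟩
    · intro a ha
      exact h4 a a.2 ha

theorem pres_iff {A M : Type} [Ring A] [AddCommGroup M] [Module A M] (B : Subring A) (L : Set M)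
    {k c : ℕ} (l : Fin k → M) (r : Fin c → Fin k → A) :
    Pres (B : Set A) L l r ↔ Pool.Agent.Msh.Pres B L l r := Iff.rfl

theorem rh_iff {R : FRing T} (M : FMod R) (Z : Set T) (d : ℕ) : RH M Z d ↔ M.RH Z d := by
  constructor
  · intro h
    exact ⟨h.coh, fun p hp => (dimLE_iff _ _ _ _).1 (h.hol p hp), h.reg⟩
  · intro h
    exact ⟨h.coh, fun p hp => (dimLE_iff _ _ _ _).2 (h.hol p hp), h.reg⟩

/-! ## row q4: isomorphic sheaves of rings and modules -/

/-- an isomorphism of sheaves of filtered rings -/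
structure RIso (R R' : FRing T) where
  /-- the isomorphisms of the stalks -/
  θ : ∀ p, R.A p ≃+* R'.A p
  ext : ∀ p a, ∀ᶠ q in 𝓝 p, R'.ext p (θ p a) q = θ q (R.ext p a q)
  fil : ∀ p m a, θ p a ∈ (R'.fil p).F m ↔ a ∈ (R.fil p).F m

/-- a semilinear isomorphism of sheaves of modules -/
structure MIso {R R' : FRing T} (I : RIso R R') (N : FMod R) (N' : FMod R') where
  /-- the isomorphisms of the stalks -/
  κ : ∀ p, N.M p ≃+ N'.M p
  smul : ∀ p a u, κ p (a • u) = I.θ p a • κ p u
  ext : ∀ p u, ∀ᶠ q in 𝓝 p, N'.ext p (κ p u) q = κ q (N.ext p u q)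

section iso

variable {R R' : FRing T} {I : RIso R R'} {N : FMod R} {N' : FMod R'}

theorem RIso.inv_iff (I : RIso R R') {p : T} (m : ℤ) (a : R.A p) :
    (R'.fil p).Inv m (I.θ p a) ↔ (R.fil p).Inv m a := by
  constructor
  · rintro ⟨b, hb, h1, h2⟩
    obtain ⟨c, rfl⟩ := (I.θ p).surjective b
    refine ⟨c, (I.fil p (-m) c).1 hb, ?_, ?_⟩
    · apply (I.θ p).injective
      rw [map_mul, map_one, h1]
    · apply (I.θ p).injective
      rw [map_mul, map_one, h2]
  · rintro ⟨c, hc, h1, h2⟩
    refine ⟨I.θ p c, (I.fil p (-m) c).2 hc, ?_, ?_⟩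
    · rw [← map_mul, h1, map_one]
    · rw [← map_mul, h2, map_one]

theorem RIso.van_iff (I : RIso R R') {p : T} (m : ℤ) (Λ : Set T) (a : R.A p) :
    R'.Van m Λ p (I.θ p a) ↔ R.Van m Λ p a := by
  refine eventually_congr ?_
  filter_upwards [I.ext p a] with q hq
  rw [hq, I.inv_iff]

theorem RIso.dimLE (I : RIso R R') {p : T} {Λ : Set T} (h : DimLE R Λ d p) : DimLE R' Λ d p := by
  intro O _ φ h1 h2 h3 h4
  refine h O (fun a => φ (I.θ p a)) ?_ ?_ ?_ ?_
  · intro a ha b hb
    have h5 := h1 (I.θ p a) ((I.fil p 0 a).2 ha) (I.θ p b) ((I.fil p 0 b).2 hb)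
    rw [← map_add, ← map_mul] at h5
    exact h5
  · rw [map_one, h2]
  · intro b
    obtain ⟨a', ha', hab⟩ := h3 b
    obtain ⟨a, rfl⟩ := (I.θ p).surjective a'
    exact ⟨a, (I.fil p 0 a).1 ha', hab⟩
  · intro a ha hv
    exact h4 (I.θ p a) ((I.fil p 0 a).2 ha) ((I.van_iff 0 Λ a).2 hv)

theorem MIso.supp_eq (K : MIso I N N') : N'.supp = N.supp := by
  ext p
  constructor
  · rintro ⟨u, hu⟩
    exact ⟨(K.κ p).symm u, fun h => hu ((AddEquiv.map_eq_zero_iff (K.κ p).symm).1 h)⟩
  · rintro ⟨u, hu⟩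
    exact ⟨K.κ p u, fun h => hu ((AddEquiv.map_eq_zero_iff (K.κ p)).1 h)⟩

/-! ## row q5: transport of regular holonomic modules -/

private lemma q5_sum (K : MIso I N N') {q : T} {k : ℕ} (b : Fin k → R.A q) (l : Fin k → N.M q) :
    K.κ q (∑ i, b i • l i) = ∑ i, I.θ q (b i) • K.κ q (l i) := by
  rw [map_sum]
  exact Finset.sum_congr rfl fun i _ => K.smul q _ _

private lemma q5_symm (K : MIso I N N') {q : T} (a : R.A q) (u : N'.M q) :
    (K.κ q).symm (I.θ q a • u) = a • (K.κ q).symm u := by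
  apply (K.κ q).injective
  rw [K.smul, AddEquiv.apply_symm_apply, AddEquiv.apply_symm_apply]

theorem MIso.pres (K : MIso I N N') {q : T} {B : Set (R.A q)} {B' : Set (R'.A q)}
    {L : Set (N.M q)} {L' : Set (N'.M q)} (hB : ∀ a, I.θ q a ∈ B' ↔ a ∈ B)
    (hL : ∀ u, K.κ q u ∈ L' ↔ u ∈ L) {k c : ℕ} {l : Fin k → N.M q} {r : Fin c → Fin k → R.A q}
    (h : Pres B L l r) : Pres B' L' (fun i => K.κ q (l i)) (fun j i => I.θ q (r j i)) := by
  have hB' : ∀ a, a ∈ B' → (I.θ q).symm a ∈ B := fun a ha => (hB _).1 (by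
    rw [RingEquiv.apply_symm_apply]; exact ha)
  refine ⟨fun j i => (hB _).2 (h.1 j i), fun u => ?_, fun b hb => ?_⟩
  · obtain ⟨v, rfl⟩ := (K.κ q).surjective u
    rw [hL, h.2.1 v]
    constructor
    · rintro ⟨b, hb, rfl⟩
      exact ⟨fun i => I.θ q (b i), fun i => (hB _).2 (hb i), q5_sum K b l⟩
    · rintro ⟨b, hb, hu⟩
      refine ⟨fun i => (I.θ q).symm (b i), fun i => hB' _ (hb i), (K.κ q).injective ?_⟩
      rw [hu, q5_sum]
      simp only [RingEquiv.apply_symm_apply]
  · have h1 := h.2.2 (fun i => (I.θ q).symm (b i)) (fun i => hB' _ (hb i))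
    have h2 : K.κ q (∑ i, (I.θ q).symm (b i) • l i) = ∑ i, b i • K.κ q (l i) := by
      rw [q5_sum]
      simp only [RingEquiv.apply_symm_apply]
    rw [← h2, map_eq_zero_iff _ (K.κ q).injective, h1]
    constructor
    · rintro ⟨a, ha, hba⟩
      refine ⟨fun j => I.θ q (a j), fun j => (hB _).2 (ha j), fun i => ?_⟩
      have h3 := congrArg (I.θ q) (hba i)
      rw [RingEquiv.apply_symm_apply, map_sum] at h3
      rw [h3]
      exact Finset.sum_congr rfl fun j _ => map_mul _ _ _
    · rintro ⟨a, ha, hba⟩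
      refine ⟨fun j => (I.θ q).symm (a j), fun j => hB' _ (ha j), fun i => ?_⟩
      rw [hba i, map_sum]
      exact Finset.sum_congr rfl fun j _ => by rw [map_mul, RingEquiv.symm_apply_apply]

theorem MIso.fp (K : MIso I N N') {p : T} {B : ∀ q, Set (R.A q)} {B' : ∀ q, Set (R'.A q)}
    {L : ∀ q, Set (N.M q)} {L' : ∀ q, Set (N'.M q)} (hB : ∀ q a, I.θ q a ∈ B' q ↔ a ∈ B q)
    (hL : ∀ q u, K.κ q u ∈ L' q ↔ u ∈ L q) (h : FP N B L p) : FP N' B' L' p := by
  obtain ⟨k, c, l, r, hp⟩ := h
  refine ⟨k, c, fun i => K.κ p (l i), fun j i => I.θ p (r j i), ?_⟩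
  filter_upwards [hp, Filter.eventually_all.2 fun i => K.ext p (l i),
    Filter.eventually_all.2 fun j => Filter.eventually_all.2 fun i => I.ext p (r j i)]
    with q hq h1 h2
  have h3 : (fun i => N'.ext p (K.κ p (l i)) q) = fun i => K.κ q (N.ext p (l i) q) := funext h1
  have h4 : (fun j i => R'.ext p (I.θ p (r j i)) q) = fun j i => I.θ q (R.ext p (r j i) q) :=
    funext fun j => funext fun i => h2 j i
  rw [h3, h4]
  exact K.pres (hB q) (hL q) hq

theorem MIso.rh (K : MIso I N N') {Z : Set T} (h : RH N Z d) : RH N' Z d := by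
  refine ⟨fun p => ?_, fun p hz => ?_, fun p => ?_⟩
  · exact K.fp (fun _ _ => Iff.rfl) (fun _ _ => Iff.rfl) (h.coh p)
  · rw [K.supp_eq]
    exact I.dimLE (h.hol p hz)
  · obtain ⟨V, L, hV, hp, hL⟩ := h.reg p
    have hL' : ∀ q u, K.κ q u ∈ {u : N'.M q | (K.κ q).symm u ∈ L q} ↔ u ∈ L q := by
      intro q u
      rw [Set.mem_ofPred_eq, AddEquiv.symm_apply_apply]
    refine ⟨V, fun q => {u | (K.κ q).symm u ∈ L q}, hV, hp, fun q hq => ⟨?_, ?_, ?_⟩⟩
    · exact K.fp (fun q a => I.fil q 0 a) hL' (hL q hq).1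
    · have h1 : ∀ v : N.M q, v ∈ Submodule.span (R.A q) (L q) →
          K.κ q v ∈ Submodule.span (R'.A q) {u : N'.M q | (K.κ q).symm u ∈ L q} := by
        intro v hv
        induction hv using Submodule.span_induction with
        | mem v hv => exact Submodule.subset_span ((hL' q v).2 hv)
        | zero => rw [map_zero]; exact Submodule.zero_mem _
        | add u v _ _ hu hv => rw [map_add]; exact Submodule.add_mem _ hu hv
        | smul a v _ hv => rw [K.smul]; exact Submodule.smul_mem _ _ hv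
      intro u
      have h2 := h1 ((K.κ q).symm u) ((hL q hq).2.1 _)
      rw [AddEquiv.apply_symm_apply] at h2
      exact h2
    · intro a ha hv u hu
      obtain ⟨a, rfl⟩ := (I.θ q).surjective a
      rw [K.supp_eq, I.van_iff] at hv
      rw [Set.mem_ofPred_eq, q5_symm]
      exact (hL q hq).2.2 a ((I.fil q 1 a).1 ha) hv _ hu

/-! ## row q6: inverses -/

/-- the inverse isomorphism -/
def RIso.symm (I : RIso R R') : RIso R' R where
  θ p := (I.θ p).symm
  ext := by
    intro p a
    filter_upwards [I.ext p ((I.θ p).symm a)] with q hq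
    rw [RingEquiv.apply_symm_apply] at hq
    rw [hq, RingEquiv.symm_apply_apply]
  fil := by
    intro p m a
    rw [← I.fil p m, RingEquiv.apply_symm_apply]

/-- the inverse isomorphism -/
def MIso.symm (K : MIso I N N') : MIso I.symm N' N where
  κ p := (K.κ p).symm
  smul := by
    intro p a u
    apply (K.κ p).injective
    change (K.κ p) ((K.κ p).symm (a • u)) = (K.κ p) ((I.θ p).symm a • (K.κ p).symm u)
    rw [K.smul, AddEquiv.apply_symm_apply, AddEquiv.apply_symm_apply, RingEquiv.apply_symm_apply]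
  ext := by
    intro p u
    filter_upwards [K.ext p ((K.κ p).symm u)] with q hq
    rw [AddEquiv.apply_symm_apply] at hq
    rw [hq, AddEquiv.symm_apply_apply]

/-- the module `N'` over the isomorphic sheaf of rings `R` -/
@[reducible] noncomputable def pull (I : RIso R R') (N' : FMod R') : FMod R where
  M := N'.M
  grp := N'.grp
  mod p := Module.compHom (N'.M p) (I.θ p : R.A p →+* R'.A p)
  ext := N'.ext
  ext_self := N'.ext_self
  ext_ext := N'.ext_ext
  ext_add := N'.ext_add
  ext_smul := by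
    intro p a u
    filter_upwards [N'.ext_smul p (I.θ p a) u, I.ext p a] with q h1 h2
    rw [h2] at h1
    exact h1

/-- `pull N'` is isomorphic to `N'` -/
noncomputable def pullIso (I : RIso R R') (N' : FMod R') : MIso I (pull I N') N' where
  κ p := AddEquiv.refl _
  smul := by
    intro p a u
    rfl
  ext := by
    intro p u
    exact Filter.Eventually.of_forall fun q => rfl

end iso

/-! ## row q7: the sheaf of operators -/

/-- microdifferential operators as a sheaf of subrings -/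
@[reducible] noncomputable def MSheaf.int (P : MSheaf T d) : Pool.Agent.Msh.MSheaf T d where
  hat := P.hat
  E p := (P.inc p).range
  ext_E := by
    rintro p _ ⟨a, rfl⟩
    filter_upwards [P.ext_inc p a] with q h
    exact ⟨P.mic.ext p a q, h.symm⟩
  Z := P.Z
  zero := by
    intro p hp
    obtain ⟨h1, h2, h3⟩ := P.zero p hp
    exact ⟨RingHom.range_eq_top.2 h1, h2, h3⟩
  std := by
    intro p hp
    refine std_int ?_
    have h := P.std p hp
    rwa [← RingHom.coe_range] at h

private lemma q7_ext (P : MSheaf T d) (p : T) (a : (P.inc p).range) (q : T)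
    (h : P.hat.ext p (a : P.hat.A p) q ∈ (P.inc q).range) :
    P.int.mic.ext p a q = (⟨_, h⟩ : (P.inc q).range) := dif_pos h

/-- the sheaf of microdifferential operators is isomorphic to its image -/
noncomputable def MSheaf.iso (P : MSheaf T d) : RIso P.mic P.int.mic where
  θ p := RingEquiv.ofBijective (P.inc p).rangeRestrict
    ⟨fun a b h => P.inj p (congrArg Subtype.val h), (P.inc p).rangeRestrict_surjective⟩
  ext := by
    intro p a
    filter_upwards [P.ext_inc p a] with q h
    have h1 : P.hat.ext p (P.inc p a) q ∈ (P.inc q).range := ⟨P.mic.ext p a q, h.symm⟩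
    refine (q7_ext P p ((P.inc p).rangeRestrict a) q h1).trans ?_
    exact Subtype.ext h
  fil := by
    intro p m a
    exact P.fil_inc p m a

/-! ## row q8: from submodules to modules -/

private lemma q8_ext {P : MSheaf T d} {M : FMod P.hat} (N : P.int.Sub M) (p : T) (u : N.N p) (q : T)
    (h : M.ext p (u : M.M p) q ∈ N.N q) : N.mod.ext p u q = (⟨_, h⟩ : N.N q) := dif_pos h

/-- Universal property of `Ext` (`exists_lift`, `ext_induction`). -/
theorem form_pull {P : MSheaf T d} {M : FMod P.hat} {N : P.int.Sub M} (h : N.IsForm) :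
    P.Form (pull P.iso N.mod) M (fun p (u : N.N p) => (u : M.M p)) where
  ext := by
    intro p u
    filter_upwards [N.ext_N p _ (Subtype.property (p := fun z => z ∈ N.N p) u)] with q hq
    exact (congrArg (fun z : N.N q => (z : M.M q)) (q8_ext N p u q hq)).symm
  inj := fun p => Subtype.val_injective
  tensor := by
    intro p
    refine ⟨⟨fun u v => rfl, fun a u => rfl⟩, ?_⟩
    rintro W _ _ h0 ⟨hadd, hsmul⟩
    obtain ⟨F, hF⟩ := h p
    let φ : N.N p →+ W := AddMonoidHom.mk' h0 hadd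
    have hφ : ∀ (a : P.int.E p) (n : N.N p), φ (a • n) = (P.int.E p).subtype a • φ n := by
      rintro ⟨_, a, rfl⟩ n
      exact hsmul a n
    obtain ⟨G, hG⟩ := Pool.Agent.Ep.exists_lift (P.int.E p).subtype φ hφ
    have key : ∀ u : N.N p, G (F.symm (u : M.M p)) = h0 u := by
      intro u
      have h1 : F (Pool.Agent.Ep.tm (P.int.E p).subtype 1 u) = (u : M.M p) := by
        rw [hF, one_smul]
      have h2 : F.symm (u : M.M p) = Pool.Agent.Ep.tm (P.int.E p).subtype 1 u := by
        rw [← h1, LinearEquiv.symm_apply_apply]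
      rw [h2, hG, one_smul]
      rfl
    refine ⟨fun u => G (F.symm u), ⟨⟨fun u v => ?_, fun a u => ?_⟩, key⟩, ?_⟩
    · show G (F.symm (u + v)) = G (F.symm u) + G (F.symm v)
      rw [map_add, map_add]
    · show G (F.symm (a • u)) = a • G (F.symm u)
      rw [LinearEquiv.map_smul, LinearMap.map_smul]
    · rintro g ⟨⟨g1, g2⟩, g3⟩
      have h1 : ∀ z, g (F z) = G z := by
        intro z
        refine Pool.Agent.Ep.ext_induction (P.int.E p).subtype (p := fun z => g (F z) = G z)
          ?_ ?_ z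
        · intro b n
          rw [hF, g2, hG]
          exact congrArg (fun w => b • w) (g3 n)
        · intro u v hu hv
          rw [map_add, g1, hu, hv, map_add]
      funext u
      have h2 := h1 (F.symm u)
      rwa [LinearEquiv.apply_symm_apply] at h2

/-! ## row q9: from modules to submodules -/

section push

variable {P : MSheaf T d} {M : FMod P.hat} {N : FMod P.mic} {j : ∀ p, N.M p → M.M p}

/-- the image of `N` -/
noncomputable def push (h : P.Form N M j) : P.int.Sub M where
  N p :=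
    { carrier := Set.range (j p)
      add_mem' := by
        rintro _ _ ⟨u, rfl⟩ ⟨v, rfl⟩
        exact ⟨u + v, (h.tensor p).1.1 u v⟩
      zero_mem' := by
        have h0 := (h.tensor p).1.1 0 0
        rw [add_zero] at h0
        exact ⟨0, left_eq_add.1 h0⟩
      smul_mem' := by
        rintro ⟨_, a, rfl⟩ _ ⟨u, rfl⟩
        exact ⟨a • u, (h.tensor p).1.2 a u⟩ }
  ext_N := by
    rintro p _ ⟨u, rfl⟩
    filter_upwards [h.ext p u] with q hq
    exact ⟨N.ext p u q, hq.symm⟩

private lemma q9_ext (h : P.Form N M j) (p : T) (u : (push h).N p) (q : T)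
    (hq : M.ext p (u : M.M p) q ∈ (push h).N q) :
    (push h).mod.ext p u q = (⟨_, hq⟩ : (push h).N q) := dif_pos hq

private noncomputable def q9_map (h : P.Form N M j) (p : T) : N.M p →+ (push h).N p :=
  AddMonoidHom.mk' (fun u => (⟨j p u, u, rfl⟩ : (push h).N p))
    (fun u v => Subtype.ext ((h.tensor p).1.1 u v))

private lemma q9_coe (h : P.Form N M j) (p : T) (u : N.M p) :
    ((q9_map h p u : (push h).N p) : M.M p) = j p u := rfl

private lemma q9_bij (h : P.Form N M j) (p : T) : Function.Bijective (q9_map h p) := by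
  refine ⟨fun u v huv => h.inj p (congrArg Subtype.val huv), ?_⟩
  rintro ⟨_, u, rfl⟩
  exact ⟨u, rfl⟩

/-- `N` is isomorphic to its image -/
theorem exists_pushIso (h : P.Form N M j) : Nonempty (MIso P.iso N (push h).mod) := by
  refine ⟨{ κ := fun p => AddEquiv.ofBijective (q9_map h p) (q9_bij h p), smul := ?_, ext := ?_ }⟩
  · intro p a u
    exact Subtype.ext ((h.tensor p).1.2 a u)
  · intro p u
    filter_upwards [h.ext p u] with q hq
    have h1 : M.ext p ((q9_map h p u : (push h).N p) : M.M p) q ∈ (push h).N q :=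
      ⟨N.ext p u q, hq.symm⟩
    refine (q9_ext h p (q9_map h p u) q h1).trans ?_
    exact Subtype.ext hq

/-- Inverse of `Ext → M`: `univ` with `W = Ext`, `h u = 1 ⊗ j u`. -/
theorem push_form (h : P.Form N M j) : (push h).IsForm := by
  intro p
  obtain ⟨F, hF⟩ := Pool.Agent.Ep.exists_lift (P.int.E p).subtype
    ((push h).N p).subtype.toAddMonoidHom (fun a n => rfl)
  obtain ⟨g, ⟨hg, hgj⟩, -⟩ := (h.tensor p).2 (Pool.Agent.Ep.Ext (P.int.E p).subtype ((push h).N p))
    (fun u => Pool.Agent.Ep.tm (P.int.E p).subtype 1 (q9_map h p u)) ⟨fun u v => by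
      show Pool.Agent.Ep.tm (P.int.E p).subtype 1 (q9_map h p (u + v)) = _
      rw [map_add, Pool.Agent.Ep.tm_add_right], fun a u => by
      have e1 : q9_map h p (a • u)
          = (⟨P.inc p a, a, rfl⟩ : P.int.E p) • (q9_map h p u : (push h).N p) :=
        Subtype.ext ((h.tensor p).1.2 a u)
      show Pool.Agent.Ep.tm (P.int.E p).subtype 1 (q9_map h p (a • u))
        = P.inc p a • Pool.Agent.Ep.tm (P.int.E p).subtype 1 (q9_map h p u)
      rw [e1, ← Pool.Agent.Ep.tm_mul, Pool.Agent.Ep.tm_smul, one_mul, mul_one]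
      rfl⟩
  have hgF : ∀ z, g (F z) = z := by
    intro z
    refine Pool.Agent.Ep.ext_induction (P.int.E p).subtype (p := fun z => g (F z) = z) ?_ ?_ z
    · intro b n
      obtain ⟨u, rfl⟩ := (q9_bij h p).2 n
      have e1 : g (j p u) = Pool.Agent.Ep.tm (P.int.E p).subtype 1 (q9_map h p u) := hgj u
      have e2 : F (Pool.Agent.Ep.tm (P.int.E p).subtype b (q9_map h p u)) = b • j p u := hF b _
      rw [e2, hg.2, e1, Pool.Agent.Ep.tm_smul, mul_one]
    · intro u v hu hv
      rw [map_add, hg.1, hu, hv]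
  have hFg : ∀ u, F (g u) = u := by
    obtain ⟨g', -, hu⟩ := (h.tensor p).2 (M.M p) (j p) (h.tensor p).1
    have e1 : (fun u => F (g u)) = g' := by
      refine hu _ ⟨⟨fun u v => ?_, fun a u => ?_⟩, fun u => ?_⟩
      · show F (g (u + v)) = F (g u) + F (g v)
        rw [hg.1, map_add]
      · show F (g (a • u)) = a • F (g u)
        rw [hg.2, map_smul]
      · show F (g (j p u)) = j p u
        have e1 : g (j p u) = Pool.Agent.Ep.tm (P.int.E p).subtype 1 (q9_map h p u) := hgj u
        rw [e1, hF, one_smul]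
        rfl
    have e2 : (fun u => u) = g' := hu _ ⟨⟨fun u v => rfl, fun a u => rfl⟩, fun u => rfl⟩
    intro u
    exact congrFun (e1.trans e2.symm) u
  refine ⟨LinearEquiv.ofBijective F ⟨fun z w hzw => ?_, fun u => ⟨g u, hFg u⟩⟩, fun b n => hF b n⟩
  rw [← hgF z, ← hgF w, hzw]

end push

end Pool.Agent.Mpub
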