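import Pool.Agent.Msh.Base
import Pool.Agent.Ep.Var

/-!
# Microdifferential operators and regular holonomic modules: public definitions (P11, helper39)

`X` is a complex manifold of dimension `d + 1`, `T` an open subset of `T*X` and `Z` the zero section.
`mic`, `hat` are the sheaves on `T` of microdifferential and of formal microdifferential operators.
-/

set_option autoImplicit false

namespace Pool.Agent.Mpub

open Topology Filter MvPowerSeries
open Pool.Agent.Msh (FR FRing FMod)
open Pool.Agent.Ep (Var Sym IsFormal IsMicro)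

section symbols

variable {d : ℕ}

/-- `∂_τ` (for `none`) and `∂_{ξ_i}` (for `some i`) on total symbols, in the variables `x_i`, `t`,
`y_i = ξ_i / τ` and `s = 1 / τ` (the variable `none`) -/
noncomputable def dXi : Option (Fin d) → Sym d → Sym d
  | none, f => -(X none * (X none * pderiv ℂ none f
      + ∑ i : Fin d, X (some (.y i)) * pderiv ℂ (some (.y i)) f))
  | some i, f => X none * pderiv ℂ (some (.y i)) f

/-- `∂_t` (for `none`) and `∂_{x_i}` (for `some i`) on total symbols -/
noncomputable def dX : Option (Fin d) → Sym d → Sym d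
  | none, f => pderiv ℂ (some .t) f
  | some i, f => pderiv ℂ (some (.x i)) f

/-- the terms of order `n` of the Leibniz formula, `∑_{|α| = n} (1/α!) (dXi^α f) (dX^α g)` -/
noncomputable def leib : ℕ → Sym d → Sym d → Sym d
  | 0, f, g => f * g
  | n + 1, f, g => ((n : ℂ) + 1)⁻¹ • ∑ i, leib n (dXi i f) (dX i g)

/-- The total symbol of the composition of two operators, `∑_n leib n f g`. The term `leib n f g` is
divisible by `s ^ n`, so that each coefficient is a finite sum. -/
noncomputable def comp (f g : Sym d) : Sym d :=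
  fun m => ∑ n ∈ Finset.range (m none + 1), coeff m (leib n f g)

end symbols

variable {T : Type} [TopologicalSpace T]

/-- The germ at `p` of the conic set `Λ` has dimension at most `d + 1`: the commutative quotient rings
`φ : F 0 → O` of the ring of operators of order `≤ 0` in which all operators whose symbol of order
`0` vanishes on `Λ` become zero (the largest one is the ring of functions on the
projectivisation of `Λ`) have Krull dimension at most `d`. -/
def DimLE (R : FRing T) (Λ : Set T) (d : ℕ) (p : T) : Prop :=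
  ∀ (O : Type) [CommRing O] (φ : R.A p → O),
    (∀ a ∈ (R.fil p).F 0, ∀ b ∈ (R.fil p).F 0, φ (a + b) = φ a + φ b ∧ φ (a * b) = φ a * φ b) →
    φ 1 = 1 → (∀ b, ∃ a ∈ (R.fil p).F 0, φ a = b) →
    (∀ a ∈ (R.fil p).F 0, R.Van 0 Λ p a → φ a = 0) → ringKrullDim O ≤ d

/-- Let `S'` be a subring of `S` and `L` a subset of an `S`-module. `L` is the `S'`-module generated by the
`l i`, and the relations between the `l i` over `S'` are generated by the rows of the matrix `r`
with entries in `S'`. -/
def Pres {S W : Type} [Ring S] [AddCommGroup W] [Module S W] (S' : Set S) (L : Set W)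
    {k c : ℕ} (l : Fin k → W) (r : Fin c → Fin k → S) : Prop :=
  (∀ j i, r j i ∈ S') ∧
  (∀ u : W, u ∈ L ↔ ∃ b : Fin k → S, (∀ i, b i ∈ S') ∧ u = ∑ i, b i • l i) ∧
  (∀ b : Fin k → S, (∀ i, b i ∈ S') →
    (∑ i, b i • l i = 0 ↔ ∃ a : Fin c → S, (∀ j, a j ∈ S') ∧ ∀ i, b i = ∑ j, a j * r j i))

section modules

variable {R : FRing T} (𝓜 : FMod R)

/-- Let `S'` be a sheaf of subrings of `R` and `L` a sheaf of `S'`-submodules of `𝓜`. Near `p`, `L` is
finitely presented over `S'`: it is the cokernel of a matrix of sections of `S'`. -/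
def FP (S' : ∀ q, Set (R.A q)) (L : ∀ q, Set (𝓜.M q)) (p : T) : Prop :=
  ∃ (k c : ℕ) (l : Fin k → 𝓜.M p) (r : Fin c → Fin k → R.A p), ∀ᶠ q in 𝓝 p,
    Pres (S' q) (L q) (fun i => 𝓜.ext p (l i) q) (fun j i => R.ext p (r j i) q)

/-- `L` is, on the open set `V`, a coherent submodule over the operators of order `≤ 0` which
generates `𝓜` and satisfies `J_Λ L ⊆ L`, where `Λ` is the support of `𝓜`. -/
def Lattice (V : Set T) (L : ∀ q, Set (𝓜.M q)) : Prop :=
  ∀ q ∈ V, FP 𝓜 (fun q => (R.fil q).F 0) L q ∧
    (∀ u : 𝓜.M q, u ∈ Submodule.span (R.A q) (L q)) ∧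
    (∀ a ∈ (R.fil q).F 1, R.Van 1 𝓜.supp q a → ∀ u ∈ L q, a • u ∈ L q)

/-- Regular holonomic modules. `Z₀` is the zero section of the cotangent bundle and `d + 1` the
dimension of the base. -/
structure RH (Z₀ : Set T) (d : ℕ) : Prop where
  coh : ∀ p, FP 𝓜 (fun _ => Set.univ) (fun _ => Set.univ) p
  hol : ∀ p, p ∉ Z₀ → DimLE R 𝓜.supp d p
  reg : ∀ p, ∃ (V : Set T) (L : ∀ q, Set (𝓜.M q)), IsOpen V ∧ p ∈ V ∧ Lattice 𝓜 V L

end modules

/-- The stalk at a point `p` outside the zero section of the cotangent bundle of a manifold of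
dimension `d + 1`, in coordinates with `p = (0; dt)`: `e` maps the total symbols of formal operators
of order `≤ 0` bijectively onto the operators of order `≤ 0`, those of microdifferential operators onto
the microdifferential operators `E`. `e s = ∂_t⁻¹`, `τ = ∂_t`. -/
def Std (d : ℕ) {S : Type} [Ring S] (f : FR S) (E : Set S) : Prop :=
  ∃ (e : Sym d → S) (τ : S),
    (∀ P Q, IsFormal P → IsFormal Q →
      e (P + Q) = e P + e Q ∧ e (comp P Q) = e P * e Q ∧ (e P = e Q → P = Q)) ∧
    e 1 = 1 ∧ (∀ a, a ∈ f.F 0 ↔ ∃ P, IsFormal P ∧ e P = a) ∧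
    (∀ P, IsFormal P → (e P ∈ E ↔ IsMicro P)) ∧
    e (X none) ∈ f.F (-1) ∧ τ ∈ f.F 1 ∧ τ ∈ E ∧ e (X none) * τ = 1 ∧ τ * e (X none) = 1

/-- The sheaves `mic → hat` of microdifferential and formal microdifferential operators on an open
subset `T` of the cotangent bundle of a complex manifold of dimension `d + 1`, with the zero section
`Z`. On the zero section both are the differential operators. -/
structure MSheaf (T : Type) [TopologicalSpace T] (d : ℕ) where
  /-- microdifferential operators -/
  mic : FRing T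
  /-- formal microdifferential operators -/
  hat : FRing T
  /-- the inclusion -/
  inc : ∀ p, mic.A p →+* hat.A p
  inj : ∀ p, Function.Injective (inc p)
  ext_inc : ∀ p a, ∀ᶠ q in 𝓝 p, hat.ext p (inc p a) q = inc q (mic.ext p a q)
  fil_inc : ∀ p m a, inc p a ∈ (hat.fil p).F m ↔ a ∈ (mic.fil p).F m
  /-- the zero section -/
  Z : Set T
  zero : ∀ p ∈ Z, Function.Surjective (inc p) ∧ (hat.fil p).F (-1) = ⊥ ∧ (1 : hat.A p) ≠ 0
  std : ∀ p, p ∉ Z → Std d (hat.fil p) (Set.range (inc p))

/-- `h` is additive and semilinear -/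
def Lin {S S' U W : Type} [Ring S] [Ring S'] [AddCommGroup U] [AddCommGroup W] [Module S U]
    [Module S' W] (φ : S → S') (h : U → W) : Prop :=
  (∀ u v, h (u + v) = h u + h v) ∧ ∀ a u, h (a • u) = φ a • h u

/-- `j` makes `V` the tensor product `S' ⊗_S U` (universal property of the tensor product) -/
def IsTensor {S S' U V : Type} [Ring S] [Ring S'] [AddCommGroup U] [AddCommGroup V] [Module S U]
    [Module S' V] (φ : S → S') (j : U → V) : Prop :=
  Lin φ j ∧ ∀ (W : Type) [AddCommGroup W] [Module S' W] (h : U → W), Lin φ h →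
    ∃! g : V → W, Lin (fun b : S' => b) g ∧ ∀ u, g (j u) = h u

/-- `j : N → 𝓜` is a morphism of sheaves which makes `𝓜` the sheaf `hat E ⊗_E N` -/
structure MSheaf.Form {d : ℕ} (P : MSheaf T d) (N : FMod P.mic) (𝓜 : FMod P.hat)
    (j : ∀ p, N.M p → 𝓜.M p) : Prop where
  ext : ∀ p u, ∀ᶠ q in 𝓝 p, 𝓜.ext p (j p u) q = j q (N.ext p u q)
  inj : ∀ p, Function.Injective (j p)
  tensor : ∀ p, IsTensor (P.inc p) (j p)

end Pool.Agent.Mpub
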