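import Pool.Agent.Mpub.Brg

/-!
# The theorem in terms of the public definitions (P11, helper39)
-/

set_option autoImplicit false

namespace Pool.Agent.Mpub

open Topology Filter
open Pool.Agent.Msh (FR FRing FMod)

variable {T : Type} [TopologicalSpace T] {d : ℕ} {P : MSheaf T d}

theorem main {M : FMod P.hat} (h : RH M P.Z d) :
    ∃ (N : FMod P.mic) (j : ∀ p, N.M p → M.M p), RH N P.Z d ∧ P.Form N M j := by
  obtain ⟨N, ⟨h1, h2⟩, _⟩ := Pool.Agent.Msh.main (P := P.int) ((rh_iff M P.Z d).1 h)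
  exact ⟨pull P.iso N.mod, fun p (u : N.N p) => (u : M.M p),
    (pullIso P.iso N.mod).symm.rh ((rh_iff N.mod P.Z d).2 h1), form_pull h2⟩

theorem full {M M' : FMod P.hat} {N N' : FMod P.mic} {j : ∀ p, N.M p → M.M p}
    {j' : ∀ p, N'.M p → M'.M p} (h1 : RH N P.Z d) (h2 : P.Form N M j) (h1' : RH N' P.Z d)
    (h2' : P.Form N' M' j') (q : T) (g : M.M q → M'.M q) (hg : Lin (fun a : P.hat.A q => a) g)
    (u : N.M q) :
    ∃ v : N'.M q, g (j q u) = j' q v := by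
  obtain ⟨K⟩ := exists_pushIso h2
  obtain ⟨K'⟩ := exists_pushIso h2'
  have h3 := (rh_iff _ P.Z d).1 (K.rh h1)
  have h3' := (rh_iff _ P.Z d).1 (K'.rh h1')
  let G : M.M q →ₗ[P.hat.A q] M'.M q := ⟨⟨g, hg.1⟩, hg.2⟩
  have h4 := Pool.Agent.Msh.full (P := P.int) h3 (push_form h2) h3' (push_form h2') q G (j q u)
    ⟨u, rfl⟩
  obtain ⟨v, hv⟩ := h4
  exact ⟨v, hv.symm⟩

end Pool.Agent.Mpub
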